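import Pool.Agent.Helper63.HV.DBb

/-!
# Row DBI
-/

set_option autoImplicit false

namespace Pool.Agent.Helper63.HV

open MeasureTheory Filter Topology Pool.Agent.Helper95.PW Pool.Agent.Helper95.LN
open Pool.Agent.Helper95.HV Pool.Agent.Helper14.PW Pool.Agent.Helper49.PN Pool.Agent.Helper51.LN

theorem DBI (h1 : ST_IBP) (h2 : ST_PAN) (h3 : ST_STB) (h4 : ST_INTM) (h5 : ST_HA2)
    (h6 : ST_HA3) : ST_DBI := by
  intro n M X Z g ρ B1 s0 u hZ _ hg hc hρ hs0 hin hu hB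
  -- one constant for the three fields
  obtain ⟨K, hK⟩ : ∃ K : ℝ, ∀ m, Scale (g m) K ρ := by
    choose K hK using fun m => db_scale (hg m) (hc m) hρ
    refine ⟨∑ m, |K m|, fun m => hK m _ ?_⟩
    exact (le_abs_self _).trans (Finset.single_le_sum (f := fun m => |K m|)
      (fun i _ => abs_nonneg _) (Finset.mem_univ m))
  have hin' : ∀ j m y, nr (y - X j) < ρ → ∀ i, pd i (g m) y = if i = m then 1 else 0 :=
    fun j m y => hin m j y
  have hP := fun m s => poe_sm h3 (hg m) (hu s).1 (hu s).2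
  have hPP := fun m s => poe_sm h3 (hg m) (hP m s).1 (hP m s).2
  -- the sum of `D2`
  have eD : ∀ x : Cf n, (∑ m, D2 X Z (g m) x) =
      (∑ m, ∑ k : Fin n, ∑ l : Fin n, if k < l then dS (g m) k l x else 0) -
        ∑ j, Z j * ∑ k, H0 g (X j) (x k) := by
    intro x
    rw [Finset.sum_congr rfl fun m _ => D2_eq X Z (g m) x, Finset.sum_sub_distrib]
    congr 1
    rw [Finset.sum_comm]
    refine Finset.sum_congr rfl fun j _ => ?_
    rw [← Finset.mul_sum, Finset.sum_comm]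
    rfl
  have iS : ∀ s m, Integrable (fun x =>
      (∑ k : Fin n, ∑ l : Fin n, if k < l then dS (g m) k l x else 0) * u s x ^ 2) := fun s m =>
    (rep_id h2 h3 h4 (hg m) (hc m) (hu s).1 (hu s).2).1
  have iH : ∀ s j, Integrable (fun x : Cf n => (∑ k, H0 g (X j) (x k)) * u s x ^ 2) := fun s j =>
    H_int (X j) hρ hK (hin' j) (hu s).1 (hu s).2
  have eD' : ∀ s, (fun x : Cf n => (∑ m, D2 X Z (g m) x) * u s x ^ 2) = fun x =>
      (∑ m, (∑ k : Fin n, ∑ l : Fin n, if k < l then dS (g m) k l x else 0) * u s x ^ 2) -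
        ∑ j, Z j * ((∑ k, H0 g (X j) (x k)) * u s x ^ 2) := by
    intro s
    funext x
    rw [eD x, sub_mul, Finset.sum_mul, Finset.sum_mul]
    congr 1
    refine Finset.sum_congr rfl fun j _ => ?_
    ring
  have i1 : ∀ s, Integrable (fun x : Cf n =>
      ∑ m, (∑ k : Fin n, ∑ l : Fin n, if k < l then dS (g m) k l x else 0) * u s x ^ 2) :=
    fun s => integrable_finsetSum _ fun m _ => iS s m
  have i2 : ∀ s, Integrable (fun x : Cf n =>
      ∑ j, Z j * ((∑ k, H0 g (X j) (x k)) * u s x ^ 2)) :=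
    fun s => integrable_finsetSum _ fun j _ => (iH s j).const_mul _
  refine ⟨fun s => ?_, ?_⟩
  · rw [eD' s]
    exact (i1 s).sub (i2 s)
  -- the right side
  have hR : ∀ s, ∫ x, (∑ m, D2 X Z (g m) x) * u s x ^ 2 =
      (∑ m, ∫ x, (∑ k : Fin n, ∑ l : Fin n, if k < l then dS (g m) k l x else 0) *
        u s x ^ 2) - ∑ j, Z j * ∫ x : Cf n, (∑ k, H0 g (X j) (x k)) * u s x ^ 2 := by
    intro s
    rw [eD' s, integral_sub (i1 s) (i2 s), integral_finsetSum _ fun m _ => iS s m,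
      integral_finsetSum _ fun j _ => (iH s j).const_mul _]
    congr 1
    refine Finset.sum_congr rfl fun j _ => ?_
    rw [integral_const_mul]
  -- the left side
  have hL : ∀ m s, ∫ x, (rep x - ∑ k, pot X Z (x k)) *
      (Pg (g m) (u s) x ^ 2 + Pg (g m) (Pg (g m) (u s)) x * u s x) =
      1 / 2 * (∫ x, (∑ k : Fin n, ∑ l : Fin n, if k < l then dS (g m) k l x else 0) *
        u s x ^ 2) - ∑ j, Z j * ((∫ x, (∑ k, 1 / nr (x k - X j)) *
          (Pg (g m) (u s) x * Pg (g m) (u s) x)) +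
        ∫ x, (∑ k, 1 / nr (x k - X j)) * (Pg (g m) (Pg (g m) (u s)) x * u s x)) := by
    intro m s
    obtain ⟨a1, a2⟩ := pot_id h4 X Z (hP m s).1 (hP m s).2 (hP m s).1 (hP m s).2
    obtain ⟨b1, b2⟩ := pot_id h4 X Z (hPP m s).1 (hPP m s).2 (hu s).1 (hu s).2
    have e : (fun x => (rep x - ∑ k, pot X Z (x k)) *
        (Pg (g m) (u s) x ^ 2 + Pg (g m) (Pg (g m) (u s)) x * u s x)) = fun x =>
        (rep x - ∑ k, pot X Z (x k)) * (Pg (g m) (u s) x * Pg (g m) (u s) x) +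
        (rep x - ∑ k, pot X Z (x k)) * (Pg (g m) (Pg (g m) (u s)) x * u s x) := by
      funext x
      ring
    rw [e, integral_add a1 b1, a2, b2]
    have c := (rep_id h2 h3 h4 (hg m) (hc m) (hu s).1 (hu s).2).2
    rw [← c]
    simp only [mul_add, Finset.sum_add_distrib]
    ring
  -- one nucleus
  have lim : Tendsto (fun i : ℕ => -(∑ j, Z j * ∑ m, ∑ s,
      ((∫ x, pin_S (pinM_U (X j) (1 / ((i : ℝ) + 1))) x *
          (Pg (g m) (u s) x * Pg (g m) (u s) x)) +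
        ∫ x, pin_S (pinM_U (X j) (1 / ((i : ℝ) + 1))) x *
          (Pg (g m) (Pg (g m) (u s)) x * u s x)))) atTop
      (𝓝 (-(∑ j, Z j * ∑ m, ∑ s, ((∫ x, (∑ k, 1 / nr (x k - X j)) *
          (Pg (g m) (u s) x * Pg (g m) (u s) x)) +
        ∫ x, (∑ k, 1 / nr (x k - X j)) * (Pg (g m) (Pg (g m) (u s)) x * u s x))))) := by
    refine Tendsto.neg (tendsto_finsetSum _ fun j _ => Tendsto.const_mul _
      (tendsto_finsetSum _ fun m _ => tendsto_finsetSum _ fun s _ => Tendsto.add ?_ ?_))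
    · exact pinM_lim h4 (X j) (hP m s).1 (hP m s).2 (hP m s).1 (hP m s).2
    · exact pinM_lim h4 (X j) (hPP m s).1 (hPP m s).2 (hu s).1 (hu s).2
  have limR : Tendsto (fun i : ℕ => B1 / 2 - 1 / 2 * ∑ j, Z j * ∑ s,
      ∫ x : Cf n, (∑ k, Tf g ρ (X j) (1 / ((i : ℝ) + 1)) (x k)) * u s x ^ 2) atTop
      (𝓝 (B1 / 2 - 1 / 2 * ∑ j, Z j * ∑ s,
        ∫ x : Cf n, (∑ k, H0 g (X j) (x k)) * u s x ^ 2)) := by
    refine Tendsto.const_sub _ (Tendsto.const_mul _ (tendsto_finsetSum _ fun j _ =>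
      Tendsto.const_mul _ (tendsto_finsetSum _ fun s _ => ?_)))
    exact Tf_ilim (X j) hρ hK (hin' j) (hu s).1 (hu s).2
  have hsm : ∀ᶠ i : ℕ in atTop, (1 : ℝ) / ((i : ℝ) + 1) ≤ s0 :=
    (tendsto_one_div_add_atTop_nhds_zero_nat.eventually (gt_mem_nhds hs0)).mono
      fun i hi => hi.le
  have key : -(∑ j, Z j * ∑ m, ∑ s, ((∫ x, (∑ k, 1 / nr (x k - X j)) *
          (Pg (g m) (u s) x * Pg (g m) (u s) x)) +
        ∫ x, (∑ k, 1 / nr (x k - X j)) * (Pg (g m) (Pg (g m) (u s)) x * u s x))) ≤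
      B1 / 2 - 1 / 2 * ∑ j, Z j * ∑ s,
        ∫ x : Cf n, (∑ k, H0 g (X j) (x k)) * u s x ^ 2 := by
    refine le_of_tendsto_of_tendsto lim limR ?_
    filter_upwards [hsm] with i hi
    have hs : (0 : ℝ) < 1 / ((i : ℝ) + 1) := by positivity
    have hBi := hB _ hs hi
    clear lim limR hsm
    generalize 1 / ((i : ℝ) + 1) = t at *
    have e1 : ∀ j, ∑ m, ∑ s, ((∫ x, pin_S (pinM_U (X j) t) x *
          (Pg (g m) (u s) x * Pg (g m) (u s) x)) +
        ∫ x, pin_S (pinM_U (X j) t) x * (Pg (g m) (Pg (g m) (u s)) x * u s x)) =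
        1 / 2 * ∑ s, ∑ m, ∫ x, pin_S (pin_D (g m) (pin_D (g m) (pinM_U (X j) t))) x *
          u s x ^ 2 := by
      intro j
      rw [Finset.sum_comm, Finset.mul_sum]
      refine Finset.sum_congr rfl fun s _ => ?_
      rw [Finset.mul_sum]
      refine Finset.sum_congr rfl fun m _ => ?_
      have := pin_id h2 h3 (hg m) (pinM_smU (X j) hs) (hu s).1 (hu s).2
      simp only [pow_two] at this ⊢
      exact this
    have e2 : ∀ j, -(∑ s, ∑ m, ∫ x, pin_S (pin_D (g m) (pin_D (g m) (pinM_U (X j) t))) x *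
          u s x ^ 2) ≤ one (fun y => mor t (y - X j)) u -
        ∑ s, ∫ x : Cf n, (∑ k, Tf g ρ (X j) t (x k)) * u s x ^ 2 := by
      intro j
      unfold one
      rw [← Finset.sum_neg_distrib, ← Finset.sum_sub_distrib]
      exact Finset.sum_le_sum fun s _ => N_ineq (X j) hs hρ hK (hin' j) (hu s).1 (hu s).2
    have e3 : ∑ j, Z j * -(∑ s, ∑ m,
        ∫ x, pin_S (pin_D (g m) (pin_D (g m) (pinM_U (X j) t))) x * u s x ^ 2) ≤
        ∑ j, Z j * (one (fun y => mor t (y - X j)) u -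
        ∑ s, ∫ x : Cf n, (∑ k, Tf g ρ (X j) t (x k)) * u s x ^ 2) :=
      Finset.sum_le_sum fun j _ => mul_le_mul_of_nonneg_left (e2 j) (hZ j)
    have e4 : -(∑ j, Z j * ∑ m, ∑ s, ((∫ x, pin_S (pinM_U (X j) t) x *
          (Pg (g m) (u s) x * Pg (g m) (u s) x)) +
        ∫ x, pin_S (pinM_U (X j) t) x * (Pg (g m) (Pg (g m) (u s)) x * u s x))) =
        1 / 2 * ∑ j, Z j * -(∑ s, ∑ m,
        ∫ x, pin_S (pin_D (g m) (pin_D (g m) (pinM_U (X j) t))) x * u s x ^ 2) := by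
      rw [← Finset.sum_neg_distrib, Finset.mul_sum]
      refine Finset.sum_congr rfl fun j _ => ?_
      rw [e1 j]
      ring
    have e5 : ∑ j, Z j * (one (fun y => mor t (y - X j)) u -
        ∑ s, ∫ x : Cf n, (∑ k, Tf g ρ (X j) t (x k)) * u s x ^ 2) =
        (∑ j, Z j * one (fun y => mor t (y - X j)) u) -
        ∑ j, Z j * ∑ s, ∫ x : Cf n, (∑ k, Tf g ρ (X j) t (x k)) * u s x ^ 2 := by
      rw [← Finset.sum_sub_distrib]
      refine Finset.sum_congr rfl fun j _ => ?_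
      ring
    rw [e4]
    rw [e5] at e3
    linarith
  have f1 : ∑ m, ∑ s, ∫ x, (rep x - ∑ k, pot X Z (x k)) *
      (Pg (g m) (u s) x ^ 2 + Pg (g m) (Pg (g m) (u s)) x * u s x) =
      1 / 2 * (∑ s, ∑ m, ∫ x, (∑ k : Fin n, ∑ l : Fin n, if k < l then dS (g m) k l x else 0) *
        u s x ^ 2) + -(∑ j, Z j * ∑ m, ∑ s, ((∫ x, (∑ k, 1 / nr (x k - X j)) *
          (Pg (g m) (u s) x * Pg (g m) (u s) x)) +
        ∫ x, (∑ k, 1 / nr (x k - X j)) * (Pg (g m) (Pg (g m) (u s)) x * u s x))) := by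
    rw [Finset.sum_congr rfl fun m _ => Finset.sum_congr rfl fun s _ => hL m s]
    simp only [Finset.sum_sub_distrib]
    rw [sub_eq_add_neg]
    congr 1
    · rw [Finset.sum_comm, Finset.mul_sum]
      refine Finset.sum_congr rfl fun s _ => ?_
      rw [Finset.mul_sum]
    · congr 1
      simp only [Finset.mul_sum]
      rw [Finset.sum_congr rfl fun m _ => Finset.sum_comm, Finset.sum_comm]
  have f2 : ∑ s, ∫ x, (∑ m, D2 X Z (g m) x) * u s x ^ 2 =
      (∑ s, ∑ m, ∫ x, (∑ k : Fin n, ∑ l : Fin n, if k < l then dS (g m) k l x else 0) *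
        u s x ^ 2) - ∑ j, Z j * ∑ s, ∫ x : Cf n, (∑ k, H0 g (X j) (x k)) * u s x ^ 2 := by
    rw [Finset.sum_congr rfl fun s _ => hR s, Finset.sum_sub_distrib]
    congr 1
    rw [Finset.sum_comm]
    refine Finset.sum_congr rfl fun j _ => ?_
    rw [Finset.mul_sum]
  rw [f1, f2]
  linarith

end Pool.Agent.Helper63.HV
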