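import Pool.Agent.Helper95.HV.Stmts
import Pool.Agent.Helper51.LN.VID
import Pool.Agent.Helper72.PM.PINM

/-!
# Rows DBS, DBI: second commutators, pointwise limits and pairs
-/

set_option autoImplicit false

namespace Pool.Agent.Helper63.HV

open MeasureTheory Filter Topology Pool.Agent.Helper95.PW Pool.Agent.Helper95.LN
open Pool.Agent.Helper95.HV Pool.Agent.Helper14.PW Pool.Agent.Helper49.PN Pool.Agent.Helper51.LN

theorem db_pdc {g : R3 → ℝ} (hg : ContDiff ℝ (⊤ : ℕ∞) g) (hc : HasCompactSupport g) (i : Fin 3) :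
    ContDiff ℝ (⊤ : ℕ∞) (pd i g) ∧ HasCompactSupport (pd i g) := by
  refine ⟨poe_pd_cd hg i, ?_⟩
  unfold pd
  exact hc.fderiv_apply (𝕜 := ℝ) _

theorem db_bd {h : R3 → ℝ} (hg : ContDiff ℝ (⊤ : ℕ∞) h) (hs : HasCompactSupport h) :
    ∃ C : ℝ, 0 ≤ C ∧ ∀ y, |h y| ≤ C := by
  obtain ⟨C, hC⟩ := hg.continuous.bounded_above_of_compact_support hs
  exact ⟨C, (norm_nonneg _).trans (hC 0), fun y => hC y⟩

/-- every smooth function with compact support has the bounds of `Scale` -/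
theorem db_scale {g : R3 → ℝ} (hg : ContDiff ℝ (⊤ : ℕ∞) g) (hc : HasCompactSupport g) {r : ℝ}
    (hr : 0 < r) : ∃ K : ℝ, ∀ K' : ℝ, K ≤ K' → Scale g K' r := by
  have h1 : ∀ i, ∃ C : ℝ, 0 ≤ C ∧ ∀ y, |pd i g y| ≤ C := fun i =>
    db_bd (db_pdc hg hc i).1 (db_pdc hg hc i).2
  have h2 : ∀ i j, ∃ C : ℝ, 0 ≤ C ∧ ∀ y, |pd i (pd j g) y| ≤ C := fun i j =>
    db_bd (db_pdc (db_pdc hg hc j).1 (db_pdc hg hc j).2 i).1
      (db_pdc (db_pdc hg hc j).1 (db_pdc hg hc j).2 i).2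
  have h3 : ∀ i j l, ∃ C : ℝ, 0 ≤ C ∧ ∀ y, |pd i (pd j (pd l g)) y| ≤ C := fun i j l =>
    have a := db_pdc (db_pdc hg hc l).1 (db_pdc hg hc l).2 j
    db_bd (db_pdc a.1 a.2 i).1 (db_pdc a.1 a.2 i).2
  have h4 : ∀ i j l m, ∃ C : ℝ, 0 ≤ C ∧ ∀ y, |pd i (pd j (pd l (pd m g))) y| ≤ C :=
    fun i j l m =>
    have a := db_pdc (db_pdc hg hc m).1 (db_pdc hg hc m).2 l
    have b := db_pdc a.1 a.2 j
    db_bd (db_pdc b.1 b.2 i).1 (db_pdc b.1 b.2 i).2
  choose C1 p1 q1 using h1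
  choose C2 p2 q2 using h2
  choose C3 p3 q3 using h3
  choose C4 p4 q4 using h4
  refine ⟨(∑ i, C1 i) + (∑ i, ∑ j, C2 i j) * r + (∑ i, ∑ j, ∑ l, C3 i j l) * r ^ 2 +
    (∑ i, ∑ j, ∑ l, ∑ m, C4 i j l m) * r ^ 3, fun K' hK' => ?_⟩
  have s1 : ∀ i, C1 i ≤ ∑ i, C1 i := fun i =>
    Finset.single_le_sum (fun i _ => p1 i) (Finset.mem_univ i)
  have s2 : ∀ i j, C2 i j ≤ ∑ i, ∑ j, C2 i j := fun i j =>
    (Finset.single_le_sum (f := fun j => C2 i j) (fun j _ => p2 i j) (Finset.mem_univ j)).trans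
    (Finset.single_le_sum (f := fun i => ∑ j, C2 i j)
      (fun i _ => Finset.sum_nonneg fun j _ => p2 i j) (Finset.mem_univ i))
  have s3 : ∀ i j l, C3 i j l ≤ ∑ i, ∑ j, ∑ l, C3 i j l := fun i j l =>
    ((Finset.single_le_sum (f := fun l => C3 i j l) (fun l _ => p3 i j l)
      (Finset.mem_univ l)).trans
    (Finset.single_le_sum (f := fun j => ∑ l, C3 i j l)
      (fun j _ => Finset.sum_nonneg fun l _ => p3 i j l) (Finset.mem_univ j))).trans
    (Finset.single_le_sum (f := fun i => ∑ j, ∑ l, C3 i j l)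
      (fun i _ => Finset.sum_nonneg fun j _ => Finset.sum_nonneg fun l _ => p3 i j l)
      (Finset.mem_univ i))
  have s4 : ∀ i j l m, C4 i j l m ≤ ∑ i, ∑ j, ∑ l, ∑ m, C4 i j l m := fun i j l m =>
    (((Finset.single_le_sum (f := fun m => C4 i j l m) (fun m _ => p4 i j l m)
      (Finset.mem_univ m)).trans
    (Finset.single_le_sum (f := fun l => ∑ m, C4 i j l m)
      (fun l _ => Finset.sum_nonneg fun m _ => p4 i j l m) (Finset.mem_univ l))).trans
    (Finset.single_le_sum (f := fun j => ∑ l, ∑ m, C4 i j l m)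
      (fun j _ => Finset.sum_nonneg fun l _ => Finset.sum_nonneg fun m _ => p4 i j l m)
      (Finset.mem_univ j))).trans
    (Finset.single_le_sum (f := fun i => ∑ j, ∑ l, ∑ m, C4 i j l m)
      (fun i _ => Finset.sum_nonneg fun j _ => Finset.sum_nonneg fun l _ =>
        Finset.sum_nonneg fun m _ => p4 i j l m) (Finset.mem_univ i))
  have n1 : 0 ≤ ∑ i, C1 i := Finset.sum_nonneg fun i _ => p1 i
  have n2 : 0 ≤ (∑ i, ∑ j, C2 i j) * r :=
    mul_nonneg (Finset.sum_nonneg fun i _ => Finset.sum_nonneg fun j _ => p2 i j) hr.le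
  have n3 : 0 ≤ (∑ i, ∑ j, ∑ l, C3 i j l) * r ^ 2 :=
    mul_nonneg (Finset.sum_nonneg fun i _ => Finset.sum_nonneg fun j _ =>
      Finset.sum_nonneg fun l _ => p3 i j l) (by positivity)
  have n4 : 0 ≤ (∑ i, ∑ j, ∑ l, ∑ m, C4 i j l m) * r ^ 3 :=
    mul_nonneg (Finset.sum_nonneg fun i _ => Finset.sum_nonneg fun j _ =>
      Finset.sum_nonneg fun l _ => Finset.sum_nonneg fun m _ => p4 i j l m) (by positivity)
  refine ⟨hg, hc, fun i y => ?_, fun i j y => ?_, fun i j l y => ?_, fun i j l m y => ?_⟩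
  · have := q1 i y
    have := s1 i
    linarith
  · rw [le_div_iff₀ hr]
    have := mul_le_mul_of_nonneg_right ((q2 i j y).trans (s2 i j)) hr.le
    linarith
  · rw [le_div_iff₀ (by positivity)]
    have := mul_le_mul_of_nonneg_right ((q3 i j l y).trans (s3 i j l)) (by positivity : 0 ≤ r ^ 2)
    linarith
  · rw [le_div_iff₀ (by positivity)]
    have := mul_le_mul_of_nonneg_right ((q4 i j l m y).trans (s4 i j l m))
      (by positivity : 0 ≤ r ^ 3)
    linarith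

/-- the pair term of `D2` -/
noncomputable def dS {n : ℕ} (g : R3 → ℝ) (k l : Fin n) (x : Cf n) : ℝ :=
  Tq (x k - x l) (gv g (x k) - gv g (x l)) (gv g (x k) - gv g (x l)) -
    (∑ i, (gq g (x k) i - gq g (x l) i) * (x k i - x l i)) / nr (x k - x l) ^ 3

theorem gq_eq (g : R3 → ℝ) (i : Fin 3) (y : R3) : gq g y i = poea g i y := by
  unfold gq poea
  exact Finset.sum_congr rfl fun l _ => mul_comm _ _

theorem dS_lim {n : ℕ} {g : R3 → ℝ} (hg : ContDiff ℝ (⊤ : ℕ∞) g) (k l : Fin n) {x : Cf n}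
    (hx : nr (x k - x l) ≠ 0) :
    Tendsto (fun m : ℕ => poeD g (poeh g k l (1 / ((m : ℝ) + 1))) x) atTop (𝓝 (dS g k l x)) := by
  have hpos : 0 < nr (x k - x l) := lt_of_le_of_ne (poe_nr_nonneg _) (Ne.symm hx)
  have h3 : Tendsto (fun m : ℕ => poew k l (1 / ((m : ℝ) + 1)) x) atTop
      (𝓝 (nr (x k - x l))⁻¹) := by
    unfold poew
    refine Tendsto.inv₀ ?_ hx
    have h1 : Tendsto (fun m : ℕ => nr (x k - x l) ^ 2 + (1 / ((m : ℝ) + 1)) ^ 2) atTop
        (𝓝 (nr (x k - x l) ^ 2 + 0 ^ 2)) :=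
      tendsto_const_nhds.add (tendsto_one_div_add_atTop_nhds_zero_nat.pow 2)
    have h2 := h1.sqrt
    rw [show nr (x k - x l) ^ 2 + (0 : ℝ) ^ 2 = nr (x k - x l) ^ 2 by ring,
      Real.sqrt_sq hpos.le] at h2
    refine h2.congr fun m => ?_
    rw [poe_q_eq]
  have h4 := ((h3.pow 3).const_mul
      (-(((pd 0 g (x k) - pd 0 g (x l)) ^ 2 + (pd 1 g (x k) - pd 1 g (x l)) ^ 2 +
        (pd 2 g (x k) - pd 2 g (x l)) ^ 2) +
        ((x k 0 - x l 0) * (poea g 0 (x k) - poea g 0 (x l)) +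
        (x k 1 - x l 1) * (poea g 1 (x k) - poea g 1 (x l)) +
        (x k 2 - x l 2) * (poea g 2 (x k) - poea g 2 (x l)))))).add
      ((h3.pow 5).const_mul (3 * ((x k 0 - x l 0) * (pd 0 g (x k) - pd 0 g (x l)) +
        (x k 1 - x l 1) * (pd 1 g (x k) - pd 1 g (x l)) +
        (x k 2 - x l 2) * (pd 2 g (x k) - pd 2 g (x l))) ^ 2))
  have h5 : dS g k l x = -(((pd 0 g (x k) - pd 0 g (x l)) ^ 2 +
        (pd 1 g (x k) - pd 1 g (x l)) ^ 2 + (pd 2 g (x k) - pd 2 g (x l)) ^ 2) +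
        ((x k 0 - x l 0) * (poea g 0 (x k) - poea g 0 (x l)) +
        (x k 1 - x l 1) * (poea g 1 (x k) - poea g 1 (x l)) +
        (x k 2 - x l 2) * (poea g 2 (x k) - poea g 2 (x l)))) * (nr (x k - x l))⁻¹ ^ 3 +
      3 * ((x k 0 - x l 0) * (pd 0 g (x k) - pd 0 g (x l)) +
        (x k 1 - x l 1) * (pd 1 g (x k) - pd 1 g (x l)) +
        (x k 2 - x l 2) * (pd 2 g (x k) - pd 2 g (x l))) ^ 2 * (nr (x k - x l))⁻¹ ^ 5 := by
    unfold dS Tq gv
    simp only [gq_eq, Fin.sum_univ_three, Pi.sub_apply, div_eq_mul_inv, inv_pow]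
    ring
  rw [h5]
  refine h4.congr fun m => ?_
  have he : (0 : ℝ) < 1 / ((m : ℝ) + 1) := by positivity
  rw [poeD_h hg k l he x]

theorem dS_bd {n : ℕ} {g : R3 → ℝ} (hg : ContDiff ℝ (⊤ : ℕ∞) g) {B : ℝ} (hB : 0 ≤ B)
    (h1 : ∀ (i : Fin 3) (x y : R3), |pd i g x - pd i g y| ≤ B * nr (x - y))
    (h2 : ∀ (i : Fin 3) (x y : R3), |poea g i x - poea g i y| ≤ B * nr (x - y))
    (k l : Fin n) {e : ℝ} (he : 0 < e) {x : Cf n} (hx : nr (x k - x l) ≠ 0) :
    |poeD g (poeh g k l e) x| ≤ (30 * B ^ 2 + 3 * B) * (1 / nr (x k - x l)) := by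
  have hpos : 0 < nr (x k - x l) := lt_of_le_of_ne (poe_nr_nonneg _) (Ne.symm hx)
  have hw : 0 < poew k l e x := inv_pos.2 (Real.sqrt_pos.2 (poeq_pos k l he x))
  have hw1 : poew k l e x ≤ 1 / nr (x k - x l) := by
    unfold poew
    rw [one_div (nr (x k - x l))]
    refine inv_anti₀ hpos ?_
    refine Real.le_sqrt_of_sq_le ?_
    rw [poe_q_eq]
    have := sq_nonneg e
    linarith
  rw [poeD_h hg k l he x]
  have a := fun i => h1 i (x k) (x l)
  have b := fun i => h2 i (x k) (x l)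
  have c := fun i => poe_abs_le_nr (x k - x l) i
  simp only [Pi.sub_apply] at c
  generalize nr (x k - x l) = R at *
  generalize poew k l e x = w at *
  have hp : ∀ i, |(x k i - x l i) * (pd i g (x k) - pd i g (x l))| ≤ B * R ^ 2 := fun i => by
    rw [abs_mul]
    calc _ ≤ R * (B * R) := mul_le_mul (c i) (a i) (abs_nonneg _) hpos.le
      _ = _ := by ring
  have hq : ∀ i, |(x k i - x l i) * (poea g i (x k) - poea g i (x l))| ≤ B * R ^ 2 := fun i => by
    rw [abs_mul]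
    calc _ ≤ R * (B * R) := mul_le_mul (c i) (b i) (abs_nonneg _) hpos.le
      _ = _ := by ring
  have hr : ∀ i, (pd i g (x k) - pd i g (x l)) ^ 2 ≤ B ^ 2 * R ^ 2 := fun i => by
    rw [← sq_abs]
    calc _ ≤ (B * R) ^ 2 := pow_le_pow_left₀ (abs_nonneg _) (a i) 2
      _ = _ := by ring
  set P := (x k 0 - x l 0) * (pd 0 g (x k) - pd 0 g (x l)) +
        (x k 1 - x l 1) * (pd 1 g (x k) - pd 1 g (x l)) +
        (x k 2 - x l 2) * (pd 2 g (x k) - pd 2 g (x l)) with hP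
  set Q := (x k 0 - x l 0) * (poea g 0 (x k) - poea g 0 (x l)) +
        (x k 1 - x l 1) * (poea g 1 (x k) - poea g 1 (x l)) +
        (x k 2 - x l 2) * (poea g 2 (x k) - poea g 2 (x l)) with hQ
  set V := (pd 0 g (x k) - pd 0 g (x l)) ^ 2 + (pd 1 g (x k) - pd 1 g (x l)) ^ 2 +
        (pd 2 g (x k) - pd 2 g (x l)) ^ 2 with hV
  have e1 : |P| ≤ 3 * B * R ^ 2 := by
    rw [hP]
    refine (abs_add_three _ _ _).trans ?_
    linarith [hp 0, hp 1, hp 2]
  have e2 : |Q| ≤ 3 * B * R ^ 2 := by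
    rw [hQ]
    refine (abs_add_three _ _ _).trans ?_
    linarith [hq 0, hq 1, hq 2]
  have e3 : |V| ≤ 3 * B ^ 2 * R ^ 2 := by
    rw [abs_of_nonneg (by rw [hV]; positivity), hV]
    linarith [hr 0, hr 1, hr 2]
  have e4 : |P| ^ 2 ≤ (3 * B * R ^ 2) ^ 2 := pow_le_pow_left₀ (abs_nonneg _) e1 2
  have f1 : |-(V + Q) * w ^ 3| ≤ (3 * B ^ 2 * R ^ 2 + 3 * B * R ^ 2) * (1 / R) ^ 3 := by
    rw [abs_mul, abs_neg, abs_of_pos (pow_pos hw 3)]
    exact mul_le_mul ((abs_add_le _ _).trans (add_le_add e3 e2)) (pow_le_pow_left₀ hw.le hw1 3)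
      (by positivity) (by positivity)
  have f2 : |3 * P ^ 2 * w ^ 5| ≤ (3 * (3 * B * R ^ 2) ^ 2) * (1 / R) ^ 5 := by
    rw [abs_mul, abs_mul, abs_of_pos (pow_pos hw 5), abs_pow, abs_of_pos (by norm_num : (0:ℝ) < 3)]
    exact mul_le_mul (by linarith) (pow_le_pow_left₀ hw.le hw1 5) (by positivity) (by positivity)
  refine ((abs_add_le _ _).trans (add_le_add f1 f2)).trans (le_of_eq ?_)
  field_simp
  ring

/-- measurability -/
theorem dS_m {n : ℕ} {g : R3 → ℝ} (hg : ContDiff ℝ (⊤ : ℕ∞) g) (k l : Fin n) :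
    Measurable (dS g k l) := by
  have hn : Measurable (fun x : Cf n => nr (x k - x l)) :=
    (poe_nr_cont.comp ((continuous_apply k).sub (continuous_apply l))).measurable
  have p := fun (k : Fin n) (i : Fin 3) => (poe_pdk_cd hg i k).continuous.measurable
  have c := fun (k : Fin n) (i : Fin 3) => (poe_cd k i).continuous.measurable
  have q : ∀ (k : Fin n) (i : Fin 3), Measurable fun x : Cf n => gq g (x k) i := by
    intro k i
    have : (fun x : Cf n => gq g (x k) i) = fun x : Cf n => poea g i (x k) := by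
      funext x
      exact gq_eq g i (x k)
    rw [this]
    exact ((poea_cd hg i).continuous.comp (continuous_apply k)).measurable
  unfold dS Tq gv
  simp only [Fin.sum_univ_three, Pi.sub_apply]
  have := p k 0
  have := p k 1
  have := p k 2
  have := p l 0
  have := p l 1
  have := p l 2
  have := c k 0
  have := c k 1
  have := c k 2
  have := c l 0
  have := c l 1
  have := c l 2
  have := q k 0
  have := q k 1
  have := q k 2
  have := q l 0
  have := q l 1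
  have := q l 2
  fun_prop

theorem dS_lip {g : R3 → ℝ} (hg : ContDiff ℝ (⊤ : ℕ∞) g) (hc : HasCompactSupport g) :
    ∃ B : ℝ, 0 ≤ B ∧ (∀ (i : Fin 3) (x y : R3), |pd i g x - pd i g y| ≤ B * nr (x - y)) ∧
    (∀ (i : Fin 3) (x y : R3), |poea g i x - poea g i y| ≤ B * nr (x - y)) := by
  obtain ⟨K, hK⟩ := db_scale hg hc (one_pos)
  have hS := hK K le_rfl
  have hK0 : 0 ≤ K := (abs_nonneg _).trans (hS.d1 0 0)
  refine ⟨3 * K + 18 * K ^ 2, by positivity, fun i x y => ?_, fun i x y => ?_⟩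
  · have h := poe_lip ((poe_pd_cd hg i).differentiable (by simp)) hK0 (fun j z => by
      have := hS.d2 j i z
      simpa using this) x y
    have := poe_nr_nonneg (x - y)
    nlinarith [mul_nonneg (sq_nonneg K) this]
  · have h := poe_lip ((poea_cd hg i).differentiable (by simp))
      (by positivity : 0 ≤ 6 * (K ^ 2 / 1 ^ 2)) (fun j z => poea_pd hS one_pos i j z) x y
    have := poe_nr_nonneg (x - y)
    nlinarith [mul_nonneg hK0 this]

/-- one pair -/
theorem dS_pair {n : ℕ} (hPAN : ST_PAN) (hSTB : ST_STB) (hI : ST_INTM) {g : R3 → ℝ}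
    (hg : ContDiff ℝ (⊤ : ℕ∞) g) (hc : HasCompactSupport g) {k l : Fin n} (hkl : k < l)
    {v : Cf n → ℝ} (hv : ContDiff ℝ (⊤ : ℕ∞) v) (hvc : HasCompactSupport v) :
    Integrable (fun x => dS g k l x * v x ^ 2) ∧
    (∫ x, 1 / nr (x k - x l) * (Pg g v x * Pg g v x)) +
      (∫ x, 1 / nr (x k - x l) * (Pg g (Pg g v) x * v x)) = 1 / 2 * ∫ x, dS g k l x * v x ^ 2 := by
  obtain ⟨B, hB, hL1, hL2⟩ := dS_lip hg hc
  obtain ⟨hp, hpc⟩ := poe_sm hSTB hg hv hvc
  obtain ⟨hpp, hppc⟩ := poe_sm hSTB hg hp hpc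
  have c1 : Continuous (fun x => Pg g v x * Pg g v x) := hp.continuous.mul hp.continuous
  have c2 : Continuous (fun x => Pg g (Pg g v) x * v x) := hpp.continuous.mul hv.continuous
  have c3 : Continuous (fun x => v x * v x) := hv.continuous.mul hv.continuous
  have I := fun (a b : Cf n → ℝ) (ha : ContDiff ℝ (⊤ : ℕ∞) a) (has : HasCompactSupport a)
    (hb : ContDiff ℝ (⊤ : ℕ∞) b) (hbs : HasCompactSupport b) =>
    (hI n 0 (fun _ => 0) (fun _ => 0) a b ha has hb hbs).2.1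
  have J1 := poe_pi hkl c1 (I _ _ hp hpc hp hpc)
  have J2 := poe_pi hkl c2 (I _ _ hpp hppc hv hvc)
  have J3 := poe_pi hkl c3 (I _ _ hv hvc hv hvc)
  have hnull := poe_null (n := n) hkl.ne
  have hbd : ∀ᵐ x : Cf n, |dS g k l x| ≤ (30 * B ^ 2 + 3 * B) * (1 / nr (x k - x l)) := by
    filter_upwards [hnull] with x hx
    exact le_of_tendsto' (dS_lim hg k l hx).abs fun m =>
      dS_bd hg hB hL1 hL2 k l (by positivity) hx
  have hint : Integrable (fun x => dS g k l x * v x ^ 2) := by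
    refine (J3.const_mul (30 * B ^ 2 + 3 * B)).mono' ?_ ?_
    · exact ((dS_m hg k l).aestronglyMeasurable).mul (hv.continuous.pow 2).aestronglyMeasurable
    · filter_upwards [hbd] with x hx
      rw [Real.norm_eq_abs, abs_mul, abs_of_nonneg (sq_nonneg (v x))]
      calc |dS g k l x| * v x ^ 2 ≤ (30 * B ^ 2 + 3 * B) * (1 / nr (x k - x l)) * v x ^ 2 :=
            mul_le_mul_of_nonneg_right hx (sq_nonneg _)
        _ = _ := by ring
  refine ⟨hint, ?_⟩
  have t1 := poe_lim hkl.ne c1 J1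
  have t2 := poe_lim hkl.ne c2 J2
  have t3 : Tendsto (fun m : ℕ => ∫ x, poeD g (poeh g k l (1 / ((m : ℝ) + 1))) x * v x ^ 2)
      atTop (𝓝 (∫ x, dS g k l x * v x ^ 2)) := by
    refine tendsto_integral_of_dominated_convergence
      (fun x => (30 * B ^ 2 + 3 * B) * (1 / nr (x k - x l) * (v x * v x))) (fun m => ?_)
      (J3.const_mul _) (fun m => ?_) ?_
    · have he : (0 : ℝ) < 1 / ((m : ℝ) + 1) := by positivity
      exact ((poe_Dc hg (poeh_cd hg k l he)).mul (hv.continuous.pow 2)).aestronglyMeasurable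
    · filter_upwards [hnull] with x hx
      have he : (0 : ℝ) < 1 / ((m : ℝ) + 1) := by positivity
      rw [Real.norm_eq_abs, abs_mul, abs_of_nonneg (sq_nonneg (v x))]
      calc _ ≤ (30 * B ^ 2 + 3 * B) * (1 / nr (x k - x l)) * v x ^ 2 :=
            mul_le_mul_of_nonneg_right (dS_bd hg hB hL1 hL2 k l he hx) (sq_nonneg _)
        _ = _ := by ring
    · filter_upwards [hnull] with x hx
      exact (dS_lim hg k l hx).mul_const _
  refine tendsto_nhds_unique (t1.add t2) ((t3.const_mul (1 / 2)).congr fun m => ?_)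
  have he : (0 : ℝ) < 1 / ((m : ℝ) + 1) := by positivity
  have hWc := poew_cd (n := n) k l he
  have hhc := poeh_cd (n := n) hg k l he
  have j1 := poe_id1 hPAN hg hv hvc hp hpc rfl hWc hhc (fun x => poeD_w k l he x)
  have j2 := poe_id2 hPAN hg hv hvc hp rfl hhc
  simp only [pow_two] at j1 j2 ⊢
  linarith

end Pool.Agent.Helper63.HV
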