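import Pool.Agent.Helper63.HV.DBa

/-!
# Rows DBS, DBI: the nuclei
-/

set_option autoImplicit false

namespace Pool.Agent.Helper63.HV

open MeasureTheory Filter Topology Pool.Agent.Helper95.PW Pool.Agent.Helper95.LN
open Pool.Agent.Helper95.HV Pool.Agent.Helper14.PW Pool.Agent.Helper49.PN Pool.Agent.Helper51.LN

/-- the second derivative of `1 / |y - a|` along `∇ g` -/
noncomputable def F0 (g : R3 → ℝ) (a y : R3) : ℝ :=
  Tq (y - a) (gv g y) (gv g y) - (∑ i, gq g y i * (y i - a i)) / nr (y - a) ^ 3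

theorem f_lim {z : R3} (hz : z ≠ 0) :
    Tendsto (fun m : ℕ => pin_f (pin_q (1 / ((m : ℝ) + 1)) z)) atTop (𝓝 (nr z)⁻¹) := by
  have ha := pin_nrpos hz
  have h1 : Tendsto (fun m : ℕ => nr z ^ 2 + (1 / ((m : ℝ) + 1)) ^ 2) atTop
      (𝓝 (nr z ^ 2 + 0 ^ 2)) :=
    tendsto_const_nhds.add (tendsto_one_div_add_atTop_nhds_zero_nat.pow 2)
  have h2 := h1.sqrt
  rw [show nr z ^ 2 + (0 : ℝ) ^ 2 = nr z ^ 2 by ring, Real.sqrt_sq ha.le] at h2
  refine (h2.inv₀ ha.ne').congr fun m => ?_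
  unfold pin_f
  rw [pin_qn]

theorem pd_subt (f : R3 → ℝ) (a : R3) (i : Fin 3) (y : R3) :
    pd i (fun z => f (z - a)) y = pd i f (y - a) := by
  unfold pd
  rw [fderiv_comp_sub]

theorem pdd_M {s : ℝ} (hs : 0 < s) (a : R3) (i j : Fin 3) (y : R3) :
    pd i (pd j (pinM_U a s)) y = pin_B s (pin_q s (y - a)) * (2 * (y i - a i)) *
      (2 * (y j - a j)) + pin_A s (pin_q s (y - a)) * (2 * (if j = i then 1 else 0)) := by
  have e : pd j (pinM_U a s) = fun z => pd j (pin_U s) (z - a) := by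
    funext z
    exact pd_subt (pin_U s) a j z
  have h1 : pd i (pd j (pinM_U a s)) y = pd i (pd j (pin_U s)) (y - a) := by
    rw [e]
    exact pd_subt (pd j (pin_U s)) a i y
  rw [h1, pin_pddU hs]
  rfl

theorem F_lim {g : R3 → ℝ} (hg : ContDiff ℝ (⊤ : ℕ∞) g) (a : R3) {y : R3} (hy : y - a ≠ 0) :
    Tendsto (fun j : ℕ => pin_D g (pin_D g (pinM_U a (1 / ((j : ℝ) + 1)))) y) atTop
      (𝓝 (F0 g a y)) := by
  have h3 := f_lim hy
  have hA : Tendsto (fun m : ℕ => pin_A (1 / ((m : ℝ) + 1))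
      (pin_q (1 / ((m : ℝ) + 1)) (y - a))) atTop
      (𝓝 (-(1 / 2) * (nr (y - a))⁻¹ ^ 3 - 3 / 4 * 0 ^ 2 * (nr (y - a))⁻¹ ^ 5)) := by
    unfold pin_A
    exact ((h3.pow 3).const_mul _).sub
      (((tendsto_one_div_add_atTop_nhds_zero_nat.pow 2).const_mul (3 / 4)).mul (h3.pow 5))
  have hB : Tendsto (fun m : ℕ => pin_B (1 / ((m : ℝ) + 1))
      (pin_q (1 / ((m : ℝ) + 1)) (y - a))) atTop
      (𝓝 (3 / 4 * (nr (y - a))⁻¹ ^ 5 + 15 / 8 * 0 ^ 2 * (nr (y - a))⁻¹ ^ 7)) := by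
    unfold pin_B
    exact ((h3.pow 5).const_mul _).add
      (((tendsto_one_div_add_atTop_nhds_zero_nat.pow 2).const_mul (15 / 8)).mul (h3.pow 7))
  have h4 := tendsto_finsetSum (Finset.univ : Finset (Fin 3)) fun i _ =>
    (tendsto_finsetSum (Finset.univ : Finset (Fin 3)) fun j _ =>
      (((hA.mul_const (2 * (y j - a j))).const_mul (pd i (pd j g) y)).add
        ((((hB.mul_const (2 * (y i - a i))).mul_const (2 * (y j - a j))).add
          (hA.mul_const (2 * (if j = i then (1 : ℝ) else 0)))).const_mul (pd j g y)))).const_mul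
      (pd i g y)
  have h5 : F0 g a y = ∑ i, pd i g y * ∑ j, (pd i (pd j g) y *
      ((-(1 / 2) * (nr (y - a))⁻¹ ^ 3 - 3 / 4 * 0 ^ 2 * (nr (y - a))⁻¹ ^ 5) *
        (2 * (y j - a j))) + pd j g y *
      ((3 / 4 * (nr (y - a))⁻¹ ^ 5 + 15 / 8 * 0 ^ 2 * (nr (y - a))⁻¹ ^ 7) *
        (2 * (y i - a i)) * (2 * (y j - a j)) +
        (-(1 / 2) * (nr (y - a))⁻¹ ^ 3 - 3 / 4 * 0 ^ 2 * (nr (y - a))⁻¹ ^ 5) *
        (2 * (if j = i then (1 : ℝ) else 0)))) := by
    unfold F0 Tq gv gq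
    simp only [Fin.sum_univ_three, Pi.sub_apply, div_eq_mul_inv, inv_pow]
    simp
    ring
  rw [h5]
  refine h4.congr fun m => ?_
  have hs : (0 : ℝ) < 1 / ((m : ℝ) + 1) := by positivity
  rw [pin_DD hg (pinM_smU a hs)]
  refine Finset.sum_congr rfl fun i _ => ?_
  congr 1
  refine Finset.sum_congr rfl fun j _ => ?_
  rw [vid_pdM hs, pdd_M hs]

theorem T_near {g : Fin 3 → R3 → ℝ} {ρ s : ℝ} (a : R3) (hs : 0 < s)
    (hg : ∀ m y, nr (y - a) < ρ → ∀ i, pd i (g m) y = if i = m then 1 else 0) (y : R3)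
    (hy : nr (y - a) < ρ) :
    ∑ m, pin_D (g m) (pin_D (g m) (pinM_U a s)) y = -mor s (y - a) := by
  have hg1 : ∀ m z, nr z < ρ → ∀ i, pd i (fun z => g m (z + a)) z = if i = m then 1 else 0 := by
    intro m z hz i
    rw [pinM_pdt]
    exact hg m (z + a) (by simpa using hz) i
  rw [Finset.sum_congr rfl (fun m _ => pinM_DD a (g m) s y),
    Finset.sum_congr rfl (fun m _ => pinM_inner (hg1 m) (y - a) hy), pin_lap hs,
    pin_mor hs]

theorem mor_lim {z : R3} (hz : z ≠ 0) :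
    Tendsto (fun m : ℕ => -mor (1 / ((m : ℝ) + 1)) z) atTop (𝓝 0) := by
  have h1 := ((tendsto_one_div_add_atTop_nhds_zero_nat (𝕜 := ℝ)).pow 4).const_mul (15 / 2)
  have h2 := (h1.mul ((f_lim hz).pow 7)).neg
  have e : -(15 / 2 * (0 : ℝ) ^ 4 * (nr z)⁻¹ ^ 7) = 0 := by ring
  rw [e] at h2
  refine h2.congr fun m => ?_
  have hs : (0 : ℝ) < 1 / ((m : ℝ) + 1) := by positivity
  rw [pin_mor hs]

/-- the sum over the three fields -/
noncomputable def H0 (g : Fin 3 → R3 → ℝ) (a y : R3) : ℝ := ∑ m, F0 (g m) a y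

theorem H_lim {g : Fin 3 → R3 → ℝ} (hg : ∀ m, ContDiff ℝ (⊤ : ℕ∞) (g m)) (a : R3) {y : R3}
    (hy : y - a ≠ 0) :
    Tendsto (fun j : ℕ => ∑ m, pin_D (g m) (pin_D (g m) (pinM_U a (1 / ((j : ℝ) + 1)))) y) atTop
      (𝓝 (H0 g a y)) :=
  tendsto_finsetSum _ fun m _ => F_lim (hg m) a hy

theorem H_near {g : Fin 3 → R3 → ℝ} (hg : ∀ m, ContDiff ℝ (⊤ : ℕ∞) (g m)) {ρ : ℝ} (a : R3)
    (hin : ∀ m y, nr (y - a) < ρ → ∀ i, pd i (g m) y = if i = m then 1 else 0) {y : R3}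
    (hy : y - a ≠ 0) (hn : nr (y - a) < ρ) : H0 g a y = 0 := by
  refine tendsto_nhds_unique (H_lim hg a hy) ((mor_lim hy).congr fun m => ?_)
  exact (T_near a (by positivity) hin y hn).symm

/-- the outer part -/
noncomputable def Tf (g : Fin 3 → R3 → ℝ) (ρ : ℝ) (a : R3) (s : ℝ) (y : R3) : ℝ :=
  if nr (y - a) < ρ then 0 else ∑ m, pin_D (g m) (pin_D (g m) (pinM_U a s)) y

theorem Tf_bd {g : Fin 3 → R3 → ℝ} {K ρ s : ℝ} (a : R3) (hs : 0 < s) (hρ : 0 < ρ)
    (h : ∀ m, Scale (g m) K ρ) (y : R3) : |Tf g ρ a s y| ≤ 420 * K ^ 2 / ρ ^ 3 := by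
  unfold Tf
  split_ifs with hy
  · rw [abs_zero]
    positivity
  · push Not at hy
    have h1 : ∀ m, |pin_D (g m) (pin_D (g m) (pinM_U a s)) y| ≤ 140 * K ^ 2 / ρ ^ 3 := by
      intro m
      refine (pinM_out a hs hρ (h m) y hy).trans ?_
      have h2 : 1 / nr (y - a) ≤ 1 / ρ := one_div_le_one_div_of_le hρ hy
      calc _ ≤ 140 * K ^ 2 / ρ ^ 2 * (1 / ρ) := mul_le_mul_of_nonneg_left h2 (by positivity)
        _ = _ := by field_simp
    calc _ ≤ ∑ m, |pin_D (g m) (pin_D (g m) (pinM_U a s)) y| := Finset.abs_sum_le_sum_abs _ _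
      _ ≤ ∑ _m : Fin 3, 140 * K ^ 2 / ρ ^ 3 := Finset.sum_le_sum fun m _ => h1 m
      _ = _ := by simp; ring

theorem Tf_lim {g : Fin 3 → R3 → ℝ} (hg : ∀ m, ContDiff ℝ (⊤ : ℕ∞) (g m)) {ρ : ℝ} (a : R3)
    (hin : ∀ m y, nr (y - a) < ρ → ∀ i, pd i (g m) y = if i = m then 1 else 0) {y : R3}
    (hy : y - a ≠ 0) :
    Tendsto (fun j : ℕ => Tf g ρ a (1 / ((j : ℝ) + 1)) y) atTop (𝓝 (H0 g a y)) := by
  by_cases hn : nr (y - a) < ρ
  · rw [H_near hg a hin hy hn]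
    refine tendsto_const_nhds.congr fun j => ?_
    unfold Tf
    rw [if_pos hn]
  · refine (H_lim hg a hy).congr fun j => ?_
    unfold Tf
    rw [if_neg hn]

theorem H_bd {g : Fin 3 → R3 → ℝ} {K ρ : ℝ} (a : R3) (hρ : 0 < ρ)
    (h : ∀ m, Scale (g m) K ρ)
    (hin : ∀ m y, nr (y - a) < ρ → ∀ i, pd i (g m) y = if i = m then 1 else 0) {y : R3}
    (hy : y - a ≠ 0) : |H0 g a y| ≤ 420 * K ^ 2 / ρ ^ 3 :=
  le_of_tendsto' (Tf_lim (fun m => (h m).sm) a hin hy).abs fun j =>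
    Tf_bd a (by positivity) hρ h y

theorem mor_nn {s : ℝ} (hs : 0 < s) (z : R3) : 0 ≤ mor s z := by
  rw [pin_mor hs]
  have := pin_fpos (pin_qpos hs z)
  positivity

theorem Tf_pt {g : Fin 3 → R3 → ℝ} {ρ s : ℝ} (a : R3) (hs : 0 < s)
    (hin : ∀ m y, nr (y - a) < ρ → ∀ i, pd i (g m) y = if i = m then 1 else 0) (y : R3) :
    -(∑ m, pin_D (g m) (pin_D (g m) (pinM_U a s)) y) ≤ mor s (y - a) - Tf g ρ a s y := by
  unfold Tf
  split_ifs with hy
  · rw [T_near a hs hin y hy]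
    linarith
  · have := mor_nn hs (y - a)
    linarith

theorem F0_m {g : R3 → ℝ} (hg : ContDiff ℝ (⊤ : ℕ∞) g) (a : R3) : Measurable (F0 g a) := by
  have hn : Measurable (fun y : R3 => nr (y - a)) :=
    (poe_nr_cont.comp (continuous_id.sub continuous_const)).measurable
  have p := fun (i : Fin 3) => (poe_pd_cd hg i).continuous.measurable
  have c := fun (i : Fin 3) => (measurable_pi_apply (X := fun _ : Fin 3 => ℝ) i)
  have q : ∀ (i : Fin 3), Measurable fun y : R3 => gq g y i := by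
    intro i
    have : (fun y : R3 => gq g y i) = fun y : R3 => poea g i y := by
      funext x
      exact gq_eq g i x
    rw [this]
    exact (poea_cd hg i).continuous.measurable
  unfold F0 Tq gv
  simp only [Fin.sum_univ_three, Pi.sub_apply]
  have := p 0
  have := p 1
  have := p 2
  have := q 0
  have := q 1
  have := q 2
  fun_prop

theorem H0_m {g : Fin 3 → R3 → ℝ} (hg : ∀ m, ContDiff ℝ (⊤ : ℕ∞) (g m)) (a : R3) :
    Measurable (H0 g a) := by
  unfold H0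
  exact Finset.measurable_sum _ fun m _ => F0_m (hg m) a

theorem Tf_m {g : Fin 3 → R3 → ℝ} (hg : ∀ m, ContDiff ℝ (⊤ : ℕ∞) (g m)) (ρ : ℝ) (a : R3)
    {s : ℝ} (hs : 0 < s) : Measurable (Tf g ρ a s) := by
  unfold Tf
  refine Measurable.ite ?_ measurable_const ?_
  · exact (isOpen_lt (poe_nr_cont.comp (continuous_id.sub continuous_const))
      continuous_const).measurableSet
  · exact Finset.measurable_sum _ fun m _ =>
      (pin_smD (hg m) (pin_smD (hg m) (pinM_smU a hs))).continuous.measurable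

theorem sq_int {n : ℕ} {v : Cf n → ℝ} (hv : ContDiff ℝ (⊤ : ℕ∞) v) (hvc : HasCompactSupport v) :
    Integrable (fun x => v x ^ 2) := by
  refine (pin_ii hv.continuous hv.continuous hvc).congr (ae_of_all _ fun x => ?_)
  simp only
  ring

theorem sum_m {n : ℕ} {w : R3 → ℝ} (hw : Measurable w) :
    Measurable (fun x : Cf n => ∑ k, w (x k)) :=
  Finset.measurable_sum _ fun k _ => hw.comp (measurable_pi_apply k)

theorem H_int {n : ℕ} {g : Fin 3 → R3 → ℝ} {K ρ : ℝ} (a : R3) (hρ : 0 < ρ)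
    (h : ∀ m, Scale (g m) K ρ)
    (hin : ∀ m y, nr (y - a) < ρ → ∀ i, pd i (g m) y = if i = m then 1 else 0)
    {v : Cf n → ℝ} (hv : ContDiff ℝ (⊤ : ℕ∞) v) (hvc : HasCompactSupport v) :
    Integrable (fun x : Cf n => (∑ k, H0 g a (x k)) * v x ^ 2) := by
  refine ((sq_int hv hvc).const_mul (n * (420 * K ^ 2 / ρ ^ 3))).mono' ?_ ?_
  · exact ((sum_m (H0_m (fun m => (h m).sm) a)).aestronglyMeasurable).mul
      (hv.continuous.pow 2).aestronglyMeasurable
  · filter_upwards [pinM_ae n a] with x hx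
    rw [Real.norm_eq_abs, abs_mul, abs_of_nonneg (sq_nonneg (v x))]
    refine mul_le_mul_of_nonneg_right ?_ (sq_nonneg _)
    calc _ ≤ ∑ k, |H0 g a (x k)| := Finset.abs_sum_le_sum_abs _ _
      _ ≤ ∑ _k : Fin n, 420 * K ^ 2 / ρ ^ 3 := Finset.sum_le_sum fun k _ => H_bd a hρ h hin (hx k)
      _ = _ := by simp

theorem Tf_int {n : ℕ} {g : Fin 3 → R3 → ℝ} {K ρ s : ℝ} (a : R3) (hs : 0 < s) (hρ : 0 < ρ)
    (h : ∀ m, Scale (g m) K ρ)
    {v : Cf n → ℝ} (hv : ContDiff ℝ (⊤ : ℕ∞) v) (hvc : HasCompactSupport v) :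
    Integrable (fun x : Cf n => (∑ k, Tf g ρ a s (x k)) * v x ^ 2) := by
  refine ((sq_int hv hvc).const_mul (n * (420 * K ^ 2 / ρ ^ 3))).mono' ?_ ?_
  · exact ((sum_m (Tf_m (fun m => (h m).sm) ρ a hs)).aestronglyMeasurable).mul
      (hv.continuous.pow 2).aestronglyMeasurable
  · refine ae_of_all _ fun x => ?_
    rw [Real.norm_eq_abs, abs_mul, abs_of_nonneg (sq_nonneg (v x))]
    refine mul_le_mul_of_nonneg_right ?_ (sq_nonneg _)
    calc _ ≤ ∑ k, |Tf g ρ a s (x k)| := Finset.abs_sum_le_sum_abs _ _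
      _ ≤ ∑ _k : Fin n, 420 * K ^ 2 / ρ ^ 3 := Finset.sum_le_sum fun k _ => Tf_bd a hs hρ h _
      _ = _ := by simp

theorem Tf_ilim {n : ℕ} {g : Fin 3 → R3 → ℝ} {K ρ : ℝ} (a : R3) (hρ : 0 < ρ)
    (h : ∀ m, Scale (g m) K ρ)
    (hin : ∀ m y, nr (y - a) < ρ → ∀ i, pd i (g m) y = if i = m then 1 else 0)
    {v : Cf n → ℝ} (hv : ContDiff ℝ (⊤ : ℕ∞) v) (hvc : HasCompactSupport v) :
    Tendsto (fun j : ℕ => ∫ x : Cf n, (∑ k, Tf g ρ a (1 / ((j : ℝ) + 1)) (x k)) * v x ^ 2) atTop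
      (𝓝 (∫ x : Cf n, (∑ k, H0 g a (x k)) * v x ^ 2)) := by
  refine tendsto_integral_of_dominated_convergence
    (fun x => (n * (420 * K ^ 2 / ρ ^ 3)) * v x ^ 2) (fun j => ?_)
    ((sq_int hv hvc).const_mul _) (fun j => ?_) ?_
  · exact ((sum_m (Tf_m (fun m => (h m).sm) ρ a (by positivity))).aestronglyMeasurable).mul
      (hv.continuous.pow 2).aestronglyMeasurable
  · refine ae_of_all _ fun x => ?_
    rw [Real.norm_eq_abs, abs_mul, abs_of_nonneg (sq_nonneg (v x))]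
    refine mul_le_mul_of_nonneg_right ?_ (sq_nonneg _)
    calc _ ≤ ∑ k, |Tf g ρ a (1 / ((j : ℝ) + 1)) (x k)| := Finset.abs_sum_le_sum_abs _ _
      _ ≤ ∑ _k : Fin n, 420 * K ^ 2 / ρ ^ 3 :=
        Finset.sum_le_sum fun k _ => Tf_bd a (by positivity) hρ h _
      _ = _ := by simp
  · filter_upwards [pinM_ae n a] with x hx
    exact (tendsto_finsetSum _ fun k _ =>
      Tf_lim (fun m => (h m).sm) a hin (hx k)).mul_const _

theorem mor_int {n : ℕ} (a : R3) {s : ℝ} (hs : 0 < s) {v : Cf n → ℝ}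
    (hv : ContDiff ℝ (⊤ : ℕ∞) v) (hvc : HasCompactSupport v) :
    Integrable (fun x : Cf n => (∑ k, mor s (x k - a)) * v x ^ 2) := by
  have hm : Continuous (fun x : Cf n => ∑ k, mor s (x k - a)) := by
    have hm1 : Continuous (mor s) := by
      have : mor s = fun y => 15 / 2 * s ^ 4 * pin_f (pin_q s y) ^ 7 :=
        funext fun y => pin_mor hs y
      rw [this]
      have := (pin_smf hs).continuous
      fun_prop
    fun_prop
  refine (pin_ii (hm.mul hv.continuous) hv.continuous hvc).congr (ae_of_all _ fun x => ?_)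
  simp only [Pi.mul_apply]
  ring

/-- one nucleus, before the limit -/
theorem N_ineq {n : ℕ} {g : Fin 3 → R3 → ℝ} {K ρ s : ℝ} (a : R3) (hs : 0 < s) (hρ : 0 < ρ)
    (h : ∀ m, Scale (g m) K ρ)
    (hin : ∀ m y, nr (y - a) < ρ → ∀ i, pd i (g m) y = if i = m then 1 else 0)
    {v : Cf n → ℝ} (hv : ContDiff ℝ (⊤ : ℕ∞) v) (hvc : HasCompactSupport v) :
    -(∑ m, ∫ x, pin_S (pin_D (g m) (pin_D (g m) (pinM_U a s))) x * v x ^ 2) ≤
      (∫ x : Cf n, (∑ k, mor s (x k - a)) * v x ^ 2) -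
        ∫ x : Cf n, (∑ k, Tf g ρ a s (x k)) * v x ^ 2 := by
  have i1 : ∀ m, Integrable (fun x : Cf n =>
      pin_S (pin_D (g m) (pin_D (g m) (pinM_U a s))) x * v x ^ 2) := by
    intro m
    have hc := (pin_smS (n := n) (pin_smD (h m).sm
      (pin_smD (h m).sm (pinM_smU a hs)))).continuous
    refine (pin_ii (hc.mul hv.continuous) hv.continuous hvc).congr (ae_of_all _ fun x => ?_)
    simp only [Pi.mul_apply]
    ring
  have i3 := mor_int (n := n) a hs hv hvc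
  have i4 := Tf_int (n := n) a hs hρ h hv hvc
  rw [← integral_finsetSum _ fun m _ => i1 m, ← integral_neg, ← integral_sub i3 i4]
  refine integral_mono (integrable_finsetSum _ fun m _ => i1 m).neg (i3.sub i4) fun x => ?_
  simp only
  have hp : ∑ k, -(∑ m, pin_D (g m) (pin_D (g m) (pinM_U a s)) (x k)) ≤
      ∑ k, (mor s (x k - a) - Tf g ρ a s (x k)) :=
    Finset.sum_le_sum fun k _ => Tf_pt a hs hin (x k)
  have q1 : -(∑ m : Fin 3, pin_S (pin_D (g m) (pin_D (g m) (pinM_U a s))) x * v x ^ 2) =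
      (∑ k, -(∑ m, pin_D (g m) (pin_D (g m) (pinM_U a s)) (x k))) * v x ^ 2 := by
    unfold pin_S
    rw [Finset.sum_neg_distrib, Finset.sum_comm, neg_mul, Finset.sum_mul]
  have q2 : (∑ k, mor s (x k - a)) * v x ^ 2 - (∑ k, Tf g ρ a s (x k)) * v x ^ 2 =
      (∑ k, (mor s (x k - a) - Tf g ρ a s (x k))) * v x ^ 2 := by
    rw [Finset.sum_sub_distrib]
    ring
  rw [q1, q2]
  exact mul_le_mul_of_nonneg_right hp (sq_nonneg _)

/-- repulsion -/
theorem rep_id {n : ℕ} (hPAN : ST_PAN) (hSTB : ST_STB) (hI : ST_INTM) {g : R3 → ℝ}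
    (hg : ContDiff ℝ (⊤ : ℕ∞) g) (hc : HasCompactSupport g)
    {v : Cf n → ℝ} (hv : ContDiff ℝ (⊤ : ℕ∞) v) (hvc : HasCompactSupport v) :
    Integrable (fun x => (∑ k : Fin n, ∑ l : Fin n, if k < l then dS g k l x else 0) * v x ^ 2) ∧
    (∫ x, rep x * (Pg g v x * Pg g v x)) + (∫ x, rep x * (Pg g (Pg g v) x * v x)) =
      1 / 2 * ∫ x, (∑ k : Fin n, ∑ l : Fin n, if k < l then dS g k l x else 0) * v x ^ 2 := by
  obtain ⟨hp, hpc⟩ := poe_sm hSTB hg hv hvc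
  obtain ⟨hpp, hppc⟩ := poe_sm hSTB hg hp hpc
  have c1 : Continuous (fun x => Pg g v x * Pg g v x) := hp.continuous.mul hp.continuous
  have c2 : Continuous (fun x => Pg g (Pg g v) x * v x) := hpp.continuous.mul hv.continuous
  have I := fun (a b : Cf n → ℝ) (ha : ContDiff ℝ (⊤ : ℕ∞) a) (has : HasCompactSupport a)
    (hb : ContDiff ℝ (⊤ : ℕ∞) b) (hbs : HasCompactSupport b) =>
    (hI n 0 (fun _ => 0) (fun _ => 0) a b ha has hb hbs).2.1
  have e : (fun x => (∑ k : Fin n, ∑ l : Fin n, if k < l then dS g k l x else 0) * v x ^ 2) =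
      fun x => ∑ k : Fin n, ∑ l : Fin n, if k < l then dS g k l x * v x ^ 2 else 0 := by
    funext x
    rw [Finset.sum_mul]
    refine Finset.sum_congr rfl fun k _ => ?_
    rw [Finset.sum_mul]
    refine Finset.sum_congr rfl fun l _ => ?_
    split_ifs
    · rfl
    · exact zero_mul _
  have J : ∀ k l : Fin n, Integrable (fun x : Cf n =>
      if k < l then dS g k l x * v x ^ 2 else 0) := by
    intro k l
    split_ifs with h
    · exact (dS_pair hPAN hSTB hI hg hc h hv hvc).1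
    · exact integrable_zero _ _ _
  rw [e]
  refine ⟨integrable_finsetSum _ fun k _ => integrable_finsetSum _ fun l _ => J k l, ?_⟩
  rw [poe_sum c1 (I _ _ hp hpc hp hpc), poe_sum c2 (I _ _ hpp hppc hv hvc),
    integral_finsetSum _ fun k _ => integrable_finsetSum _ fun l _ => J k l, Finset.mul_sum,
    ← Finset.sum_add_distrib]
  refine Finset.sum_congr rfl fun k _ => ?_
  rw [integral_finsetSum _ fun l _ => J k l, Finset.mul_sum, ← Finset.sum_add_distrib]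
  refine Finset.sum_congr rfl fun l _ => ?_
  split_ifs with hkl
  · exact (dS_pair hPAN hSTB hI hg hc hkl hv hvc).2
  · simp

/-- the decomposition of `D2` -/
theorem D2_eq {n M : ℕ} (X : Fin M → R3) (Z : Fin M → ℝ) (g : R3 → ℝ) (x : Cf n) :
    D2 X Z g x = (∑ k : Fin n, ∑ l : Fin n, if k < l then dS g k l x else 0) -
      ∑ j, Z j * ∑ k, F0 g (X j) (x k) := by
  have e1 : D2 X Z g x = (∑ k : Fin n, ∑ l : Fin n, if k < l then dS g k l x else 0) +
      ∑ k, ∑ j, Z j * ((∑ i, gq g (x k) i * (x k i - X j i)) / nr (x k - X j) ^ 3 -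
        Tq (x k - X j) (gv g (x k)) (gv g (x k))) := rfl
  have e3 : ∑ k, ∑ j, Z j * ((∑ i, gq g (x k) i * (x k i - X j i)) / nr (x k - X j) ^ 3 -
        Tq (x k - X j) (gv g (x k)) (gv g (x k))) =
      ∑ j, ∑ k, Z j * ((∑ i, gq g (x k) i * (x k i - X j i)) / nr (x k - X j) ^ 3 -
        Tq (x k - X j) (gv g (x k)) (gv g (x k))) := Finset.sum_comm
  rw [e1, e3]
  have e2 : ∀ j, ∑ k, Z j * ((∑ i, gq g (x k) i * (x k i - X j i)) / nr (x k - X j) ^ 3 -
        Tq (x k - X j) (gv g (x k)) (gv g (x k))) = -(Z j * ∑ k, F0 g (X j) (x k)) := by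
    intro j
    rw [Finset.mul_sum, ← Finset.sum_neg_distrib]
    refine Finset.sum_congr rfl fun k _ => ?_
    unfold F0
    ring
  rw [Finset.sum_congr rfl fun j _ => e2 j, Finset.sum_neg_distrib]
  ring

/-- expand the potential -/
theorem pot_id {n M : ℕ} (hI : ST_INTM) (X : Fin M → R3) (Z : Fin M → ℝ) {v w : Cf n → ℝ}
    (hv : ContDiff ℝ (⊤ : ℕ∞) v) (hvc : HasCompactSupport v)
    (hw : ContDiff ℝ (⊤ : ℕ∞) w) (hwc : HasCompactSupport w) :
    Integrable (fun x => (rep x - ∑ k, pot X Z (x k)) * (v x * w x)) ∧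
    ∫ x, (rep x - ∑ k, pot X Z (x k)) * (v x * w x) = (∫ x, rep x * (v x * w x)) -
      ∑ j, Z j * ∫ x, (∑ k, 1 / nr (x k - X j)) * (v x * w x) := by
  obtain ⟨K1, K2, -, -⟩ := hI n M X Z v w hv hvc hw hwc
  have e0 : (fun x => (rep x - ∑ k, pot X Z (x k)) * (v x * w x)) =
      fun x => rep x * (v x * w x) - (∑ k, pot X Z (x k)) * (v x * w x) := by
    funext x
    ring
  rw [e0]
  refine ⟨K2.sub K1, ?_⟩
  rw [integral_sub K2 K1]
  congr 1
  have a1 : ∀ x : Cf n, (∑ k, pot X Z (x k)) * (v x * w x) =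
      ∑ j, Z j * ((∑ k, 1 / nr (x k - X j)) * (v x * w x)) := by
    intro x
    unfold pot
    rw [Finset.sum_comm, Finset.sum_mul]
    refine Finset.sum_congr rfl fun j _ => ?_
    have a2 : ∑ k, Z j / nr (x k - X j) = Z j * ∑ k, 1 / nr (x k - X j) := by
      rw [Finset.mul_sum]
      refine Finset.sum_congr rfl fun k _ => ?_
      ring
    rw [a2]
    ring
  simp only [a1]
  rw [integral_finsetSum _ fun j _ => (pinM_int hI (X j) hv hvc hw hwc).const_mul (Z j)]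
  refine Finset.sum_congr rfl fun j _ => ?_
  rw [integral_const_mul]

end Pool.Agent.Helper63.HV
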